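import Pool.Agent.H505R3.Asym8
import Pool.Agent.H505R2.Out

set_option autoImplicit false

namespace Pool.Agent.Results.MP_4b1228_nt.EvenRoughMembers

/-- For all large `X` at least `X ^ (1 / 3) / (log X) ^ 139` integers `N ≤ X` have the
Ankeny-Chowla-Hasse shape `N = 2 q n`, with `q` prime and `n > 1`, and are such that `N ^ 2 + 1` is
a product of an even number, at most `24000`, of primes, all larger than `X ^ (1 / 8000)`. -/
theorem result : ∃ X₀ : ℕ, ∀ X : ℕ, X₀ ≤ X →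
    (X : ℝ) ^ ((1 : ℝ) / 3) / Real.log X ^ 139 ≤
      (({N : ℕ | N ≤ X ∧ (∃ q n : ℕ, q.Prime ∧ 1 < n ∧ N = 2 * q * n) ∧
        Even (N ^ 2 + 1).primeFactorsList.length ∧
        (N ^ 2 + 1).primeFactorsList.length ≤ 24000 ∧
        ∀ p : ℕ, p.Prime → p ∣ N ^ 2 + 1 → (X : ℝ) ^ ((1 : ℝ) / 8000) < p} : Set ℕ).ncard : ℝ) := by
  obtain ⟨X₀, h⟩ := Pool.Agent.H505R3.main8
  refine ⟨max X₀ 2, fun X hX => ?_⟩
  have h1 := h (fun m => Even m.primeFactorsList.length) (by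
    intro a b ha hb h1 h2
    rw [Nat.not_even_iff_odd] at h1 h2
    rw [Pool.Agent.H505R2.len_mul ha hb]
    exact h1.add_odd h2) X (le_trans (le_max_left _ _) hX)
  have hX2 : 2 ≤ X := le_trans (le_max_right _ _) hX
  refine h1.trans ?_
  have hsub : ({n : ℕ | n ≤ X ∧ 0 < n ∧ 8 ∣ n ∧
      (∀ p : ℕ, p.Prime → p ∣ n ^ 2 + 1 → (X : ℝ) ^ ((1 : ℝ) / 8000) < p) ∧
      Even (n ^ 2 + 1).primeFactorsList.length} : Set ℕ) ⊆
      {N : ℕ | N ≤ X ∧ (∃ q n : ℕ, q.Prime ∧ 1 < n ∧ N = 2 * q * n) ∧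
        Even (N ^ 2 + 1).primeFactorsList.length ∧
        (N ^ 2 + 1).primeFactorsList.length ≤ 24000 ∧
        ∀ p : ℕ, p.Prime → p ∣ N ^ 2 + 1 → (X : ℝ) ^ ((1 : ℝ) / 8000) < p} := by
    rintro n ⟨a1, a2, ⟨m, rfl⟩, a4, a5⟩
    refine ⟨a1, ⟨2, 2 * m, Nat.prime_two, by omega, by ring⟩, a5, ?_, a4⟩
    have h3 := Pool.Agent.H505R2.len_le (X := X) (M := (8 * m) ^ 2 + 1) (δ := 1 / 8000) hX2
      (by positivity) ?_ (by norm_num) a4
    · have h4 : ⌈(3 : ℝ) / (1 / 8000)⌉₊ = 24000 := by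
        rw [show (3 : ℝ) / (1 / 8000) = ((24000 : ℕ) : ℝ) by norm_num, Nat.ceil_natCast]
      rw [h4] at h3
      exact h3
    · have h5 : (8 * m) ^ 2 + 1 ≤ X ^ 3 := by
        have h6 : (8 * m) ^ 2 ≤ X ^ 2 := Nat.pow_le_pow_left a1 2
        have h7 : X ^ 2 + 1 ≤ X ^ 3 := by
          have h8 : X ^ 3 = X * X ^ 2 := by ring
          have h9 : 2 * X ^ 2 ≤ X * X ^ 2 := Nat.mul_le_mul_right _ hX2
          have h10 : 1 ≤ X ^ 2 := Nat.one_le_pow _ _ (by omega)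
          omega
        omega
      exact_mod_cast h5
  exact_mod_cast Set.ncard_le_ncard hsub ((Set.finite_Iic X).subset fun _ hn => hn.1)

end Pool.Agent.Results.MP_4b1228_nt.EvenRoughMembers
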