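import Pool.Agent.H912R3.GM.Main4

set_option autoImplicit false

/-! # Composite values of `(n + a) ^ 2 + b ^ 2` at an arbitrary set of prescribed places

For every finite set `F` of pairs `(a, b)`, `b ≥ 1`, of size at most `exp ((log X) ^ A)` with
`∑ (b / φ(b)) ^ 2 ≤ c log X log log X`, every interval of length `X` contains an `n` for which all the
numbers `(n + a) ^ 2 + b ^ 2`, `(a, b) ∈ F`, are composite, with a prime factor at most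
`exp ((log X) ^ (1 / 20))`. With `b = 1` and `b = 2`: `m ^ 2 + 1` and `m ^ 2 + 4`, `m = n + a`, for `a` in an arbitrary set. -/

namespace Pool.Agent.Results.MP_4b1228_nt.PrescribedComposites

theorem result : ∀ A : ℕ, ∃ c : ℝ, 0 < c ∧ ∃ X₀ : ℝ, ∀ X : ℝ, X₀ ≤ X →
    ∀ F : Finset (ℤ × ℕ),
    (∀ x ∈ F, 1 ≤ x.2 ∧ |(x.1 : ℝ)| ≤ Real.exp ((Real.log X) ^ A) ∧
      (x.2 : ℝ) ≤ Real.exp ((Real.log X) ^ A)) →
    ∑ x ∈ F, ((x.2 : ℝ) / Nat.totient x.2) ^ 2 ≤ c * (Real.log X * Real.log (Real.log X)) →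
    ∀ z : ℤ, ∃ n : ℤ, z < n ∧ (n : ℝ) ≤ z + X ∧
      ∀ x ∈ F, ¬ Prime ((n + x.1) ^ 2 + (x.2 : ℤ) ^ 2) ∧
        ∃ p : ℕ, p.Prime ∧ (p : ℝ) ≤ Real.exp ((Real.log X) ^ (1 / 20 : ℝ)) ∧
          (p : ℤ) ∣ (n + x.1) ^ 2 + (x.2 : ℤ) ^ 2 := by
  intro A
  obtain ⟨c, hc, X₀, h⟩ := Pool.Agent.H912R3.GM.two_squares A
  refine ⟨c, hc, X₀, fun X hX F hF hsum z => ?_⟩
  obtain ⟨n, h1, h2, h3⟩ := h X hX F hF hsum z
  refine ⟨n, h1, h2, fun x hx => ?_⟩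
  obtain ⟨p, hp, hpE, hpd, hpl⟩ := h3 x hx
  refine ⟨fun hpr => ?_, p, hp, hpE, hpd⟩
  have hpi : Prime (p : ℤ) := Nat.prime_iff_prime_int.1 hp
  have h4 : Associated (p : ℤ) ((n + x.1) ^ 2 + (x.2 : ℤ) ^ 2) :=
    (Prime.dvd_prime_iff_associated hpi hpr).1 hpd
  have h5 : (p : ℤ).natAbs = ((n + x.1) ^ 2 + (x.2 : ℤ) ^ 2).natAbs :=
    Int.associated_iff_natAbs.1 h4
  have h6 : (0 : ℤ) ≤ (n + x.1) ^ 2 + (x.2 : ℤ) ^ 2 := by positivity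
  omega

end Pool.Agent.Results.MP_4b1228_nt.PrescribedComposites
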